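import Pool.Agent.X312.CQ.FoldDefs
import Pool.Agent.X312.FK.Rk

/-!
# Restrictions to `i`-folds: the gap law
-/

open CategoryTheory AlgebraicGeometry

universe u v

namespace Pool.Agent.X312.CQ

open Module
open Pool.Agent.H914 Pool.Agent.H914.VarClass Pool.Agent.H914.VarClass.Obj
  Pool.Agent.H914.WeilCohomology Pool.Agent.Y133.Half Pool.Agent.X312.FK
open Pool.Agent.X312.FC (rankBound)

variable {k : Type u} [Field k] {𝒱 : VarClass k} {ops : CycleOps 𝒱}
  {W : WeilCohomology.{u, v} ops} {C : ChowData W} {T : ChowModule C}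

/-- The cycles which are not detected. -/
def undet (F : FoldData T) (Z : 𝒱.Obj) : Submodule W.K (T.M Z) where
  carrier := {x | F.Undetected x}
  add_mem' {x y} hx hy := fun f => (F.ker Z f).add_mem (hx f) (hy f)
  zero_mem' := fun f => (F.ker Z f).zero_mem
  smul_mem' t x hx := fun f => (F.ker Z f).smul_mem t (hx f)

lemma undet_stable (F : FoldData T) (hF : F.HasBaseChange) : IsStableIn T (undet F) := by
  intro Z Z' a x hx g
  obtain ⟨s, h⟩ := hF Z Z' a g
  exact h x fun f _ => hx f

/-- **The gap law for undetected cycles.** -/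
theorem detection_law (hC : C.IsChow) (hT : T.IsFunctor) (F : FoldData T) (hF : F.HasBaseChange)
    (X : 𝒱.Obj) (hX : ∀ n, C.NumNil (pw X n)) (hn : ∀ n, HomEqNum W (pw X n))
    {m : ℕ} (e : C.A (pw X m) (pw X m)) (he : C.comp e e = e)
    (hirr : IrreducibleIn IsAlgClass (C.cl e)) {r : ℕ} (hr : RankGE (C.cl e) r) :
    (∀ x : T.M (pw X m), F.Undetected x → T.act e x = 0) ∨
    ∀ n : ℕ, IndepMod {x : T.M (pw X n) | F.Undetected x} (⊥ : Submodule W.K (T.M (pw X n)))
      (rankBound r (finrank W.K (W.H X)) (cycRank ops (pw X n)) m n) := by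
  rcases rk_pair hC hT X hX hn (N' := fun _ => ⊥) (N := undet F) (by
      intro Z Z' a x hx
      rw [(Submodule.mem_bot W.K).1 hx]
      have h1 : T.act a (0 : T.M Z) = 0 := map_zero ((fn hT).map a)
      rw [h1]; exact Submodule.zero_mem _)
    (undet_stable F hF) e he hirr hr with h | h
  · exact Or.inl fun x hx => (Submodule.mem_bot W.K).1 (h x hx)
  · right
    intro n
    exact h n

end Pool.Agent.X312.CQ
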