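import Pool.Agent.X312.FK.ChowDefs

/-!
# Restrictions to `i`-folds: definitions
-/

open CategoryTheory AlgebraicGeometry

universe u v

namespace Pool.Agent.X312.CQ

open Pool.Agent.H914 Pool.Agent.H914.VarClass Pool.Agent.X312.FK

variable {k : Type u} [Field k] {𝒱 : VarClass k} {ops : CycleOps 𝒱}
  {W : WeilCohomology.{u, v} ops} {C : ChowData W}

/-- Data of restrictions. In the intended use `T(Z)` is the Chow group of `Y × Z`, a fold `f` of `Z` is
a morphism `V → Y × Z` with `V` smooth and projective, of dimension `i` say, and `ker Z f` is the space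
of the cycles whose component of codimension `i` has restriction `0` in the group of zero-cycles on `V`
modulo rational equivalence. -/
structure FoldData (T : ChowModule C) where
  /-- the folds -/
  Fold : 𝒱.Obj → Type v
  /-- the cycles which restrict to zero on the fold -/
  ker : ∀ Z : 𝒱.Obj, Fold Z → Submodule W.K (T.M Z)

/-- The cycle `x` restricts to zero on all folds. -/
def FoldData.Undetected {T : ChowModule C} (F : FoldData T) {Z : 𝒱.Obj} (x : T.M Z) : Prop :=
  ∀ f : F.Fold Z, x ∈ F.ker Z f

/-- For each correspondence `a` and each fold `g` of the target there are finitely many folds of the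
source, such that `a x` restricts to zero on `g` if `x` restricts to zero on these folds. -/
def FoldData.HasBaseChange {T : ChowModule C} (F : FoldData T) : Prop :=
  ∀ (Z Z' : 𝒱.Obj) (a : C.A Z Z') (g : F.Fold Z'), ∃ s : Finset (F.Fold Z),
    ∀ x : T.M Z, (∀ f ∈ s, x ∈ F.ker Z f) → T.act a x ∈ F.ker Z' g

end Pool.Agent.X312.CQ
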