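import Pool.Agent.X312.CQ.VarDefs
import Pool.Agent.X312.FC.PrimLaw

/-!
# Deformations of cycle classes: the gap law
-/

open CategoryTheory AlgebraicGeometry

universe u v

namespace Pool.Agent.X312.CQ

open Module
open Pool.Agent.H914 Pool.Agent.H914.VarClass Pool.Agent.H914.VarClass.Obj
  Pool.Agent.H914.WeilCohomology Pool.Agent.Y133.Half Pool.Agent.X312.FC
open Pool.Agent.X312.FM (Family Has IsRingFamily IsNondeg dimOn)
open Pool.Agent.X312.FK (composite IrreducibleIn)

/-- If elements of the span of `S` are independent modulo `N` then as many elements of `S` are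
independent modulo `N`. -/
lemma indep_of_span {K M : Type v} [Field K] [AddCommGroup M] [Module K M] {S : Set M}
    {N : Submodule K M} {x : ℝ} (h : FK.IndepMod (Submodule.span K S : Set M) N x) :
    FK.IndepMod S N x := by
  classical
  obtain ⟨r, a, h1, h2, h3⟩ := h
  obtain ⟨b, hb, hsp, hli⟩ := exists_linearIndependent K (N.mkQ '' S)
  have h4 : ∀ i, N.mkQ (a i) ∈ Submodule.span K b := by
    intro i
    rw [hsp, ← Submodule.map_span]
    exact Submodule.mem_map_of_mem (h3 i)
  have h5 : LinearIndependent K (fun i => (⟨N.mkQ (a i), h4 i⟩ : Submodule.span K b)) :=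
    LinearIndependent.of_comp (Submodule.span K b).subtype h2
  have h6 : (r : Cardinal) ≤ Cardinal.mk b := by
    have h7 := h5.cardinal_lift_le_rank
    rw [rank_span_set hli, Cardinal.mk_fin, Cardinal.lift_natCast] at h7
    simpa using h7
  have h8 : Cardinal.mk (ULift.{v} (Fin r)) ≤ Cardinal.mk b := by
    simpa using h6
  obtain ⟨g⟩ := h8
  have h9 : ∀ i : Fin r, ∃ s ∈ S, N.mkQ s = (g ⟨i⟩ : M ⧸ N) := fun i => hb (g ⟨i⟩).2
  choose s hs hs' using h9
  refine ⟨r, s, h1, ?_, hs⟩
  have h10 : (fun i => N.mkQ (s i)) = fun i : Fin r => ((g ⟨i⟩ : b) : M ⧸ N) := funext hs'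
  rw [h10]
  exact hli.comp (fun i : Fin r => g ⟨i⟩) (fun i j hij => by
    have := g.injective hij
    exact congrArg ULift.down this)

variable {k : Type u} [Field k] {𝒱 : VarClass k} {ops : CycleOps 𝒱}
  {W : WeilCohomology.{u, v} ops} {C : Family W} {T : CorrData W}

/-- A family of subsets which is stable under the correspondences given by cycles generates a stable
family of subspaces. -/
lemma span_stable (hT : T.IsFunctor C) {S : VariationData T} (hS : S.IsCompatible C)
    {B : ∀ Z : 𝒱.Obj, Set (T.M Z)}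
    (hB : ∀ (Z Z' : 𝒱.Obj) (b : W.H (Z.prod Z')), Has C b → b ∈ S.corr Z Z' →
      ∀ x : T.M Z, x ∈ B Z → T.act b x ∈ B Z') :
    StableC C T (fun Z => Submodule.span W.K (B Z)) := by
  intro Z Z' a ha x hx
  change T.act a x ∈ Submodule.span W.K (B Z')
  have h0 : Submodule.span W.K (B Z) ≤ (Submodule.span W.K (B Z')).comap (actL hT a) := by
    refine Submodule.span_le.2 fun y hy => ?_
    change T.act a y ∈ Submodule.span W.K (B Z')
    have h1 := hS.gen Z Z' a ha
    refine Submodule.span_induction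
      (p := fun a _ => T.act a y ∈ Submodule.span W.K (B Z')) ?_ ?_ ?_ ?_ h1
    · rintro b ⟨hb, hb'⟩
      exact Submodule.subset_span (hB Z Z' b hb hb' y hy)
    · have h2 : T.act (0 : W.H (Z.prod Z')) y = 0 := by
        have h3 := hT.smul_act (0 : W.K) (0 : W.H (Z.prod Z')) y
        rwa [zero_smul, zero_smul] at h3
      rw [h2]; exact Submodule.zero_mem _
    · intro a b _ _ ha hb
      rw [hT.add_act]; exact Submodule.add_mem _ ha hb
    · intro t a _ ha
      rw [hT.smul_act]; exact Submodule.smul_mem _ _ ha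
  exact h0 hx

/-- **The gap law for deformations.** -/
theorem variation_law (hC : IsRingFamily C) (hT : T.IsFunctor C) (S : VariationData T)
    (hS : S.IsCompatible C) (X : 𝒱.Obj) (hX : ∀ n, IsNondeg C (pw X n)) {m : ℕ}
    {e : W.H ((pw X m).prod (pw X m))} (he : Has C e) (hee : composite W e e = e)
    (hirr : IrreducibleIn (Has C) e) :
    (∀ x : T.M (pw X m), x ∈ S.cyc (pw X m) → x ∈ S.flat (pw X m) →
      T.act e x ∈ Submodule.span W.K (S.res (pw X m))) ∨
    ∀ n : ℕ, FK.IndepMod (S.cyc (pw X n) ∩ S.flat (pw X n))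
      (Submodule.span W.K (S.res (pw X n)))
      (rankBound (corrRank e) (finrank W.K (W.H X)) (dimOn C (pw X n)) m n) := by
  rcases irr_fun_law hC hT
    (N' := fun Z => Submodule.span W.K (S.res Z)) (N := fun Z => Submodule.span W.K (S.cyc Z ∩ S.flat Z))
    (span_stable hT hS hS.res_act)
    (span_stable hT hS (fun Z Z' b hb hb' x hx =>
      ⟨hS.cyc_act Z Z' b hb hb' x hx.1, hS.flat_act Z Z' b hb hb' x hx.2⟩)) X hX he hee hirr
    with h | h
  · exact Or.inl fun x h1 h2 => h x (Submodule.subset_span ⟨h1, h2⟩)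
  · exact Or.inr fun n => indep_of_span (h n)

end Pool.Agent.X312.CQ
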