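import Pool.Agent.X312.CQ.PairDefs
import Pool.Agent.X312.CQ.Var

/-!
# Intersection numbers with classes on the reduction: the gap law
-/

open CategoryTheory AlgebraicGeometry

universe u v

namespace Pool.Agent.X312.CQ

open Module
open Pool.Agent.H914 Pool.Agent.H914.VarClass Pool.Agent.H914.VarClass.Obj
  Pool.Agent.H914.WeilCohomology Pool.Agent.Y133.Half Pool.Agent.X312.FC
open Pool.Agent.X312.FM (Family Has IsRingFamily IsNondeg dimOn)
open Pool.Agent.X312.FK (composite IrreducibleIn)

variable {k : Type u} [Field k] {𝒱 : VarClass k} {ops : CycleOps 𝒱}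
  {W : WeilCohomology.{u, v} ops} {C : Family W} {T : CorrData W}

/-- A family of subsets which is stable under generating correspondences generates a stable family of
subspaces. -/
lemma gen_stable (hT : T.IsFunctor C) {S : PairingData T} (hS : S.IsCompatible C)
    {B : ∀ Z : 𝒱.Obj, Set (T.M Z)}
    (hB : ∀ (Z Z' : 𝒱.Obj) (b : W.H (Z.prod Z')), b ∈ S.corr Z Z' →
      ∀ x : T.M Z, x ∈ B Z → T.act b x ∈ B Z') :
    StableC C T (fun Z => Submodule.span W.K (B Z)) := by
  intro Z Z' a ha x hx
  change T.act a x ∈ Submodule.span W.K (B Z')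
  have h0 : Submodule.span W.K (B Z) ≤ (Submodule.span W.K (B Z')).comap (actL hT a) := by
    refine Submodule.span_le.2 fun y hy => ?_
    change T.act a y ∈ Submodule.span W.K (B Z')
    have h1 := hS.gen Z Z' a ha
    refine Submodule.span_induction
      (p := fun a _ => T.act a y ∈ Submodule.span W.K (B Z')) ?_ ?_ ?_ ?_ h1
    · intro b hb
      exact Submodule.subset_span (hB Z Z' b hb y hy)
    · have h2 : T.act (0 : W.H (Z.prod Z')) y = 0 := by
        have h3 := hT.smul_act (0 : W.K) (0 : W.H (Z.prod Z')) y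
        rwa [zero_smul, zero_smul] at h3
      rw [h2]; exact Submodule.zero_mem _
    · intro a b _ _ ha hb
      rw [hT.add_act]; exact Submodule.add_mem _ ha hb
    · intro t a _ ha
      rw [hT.smul_act]; exact Submodule.smul_mem _ _ ha
  exact h0 hx

/-- **The gap law for rational intersection numbers.** -/
theorem pairing_law (hC : IsRingFamily C) (hT : T.IsFunctor C) (S : PairingData T)
    (hS : S.IsCompatible C) (X : 𝒱.Obj) (hX : ∀ n, IsNondeg C (pw X n)) {m : ℕ}
    {e : W.H ((pw X m).prod (pw X m))} (he : Has C e) (hee : composite W e e = e)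
    (hirr : IrreducibleIn (Has C) e) :
    (∀ c : T.M (pw X m), c ∈ S.hodge (pw X m) →
      T.act e c ∈ Submodule.span W.K (S.rational (pw X m))) ∨
    ∀ n : ℕ, FK.IndepMod (S.hodge (pw X n)) (Submodule.span W.K (S.rational (pw X n)))
      (rankBound (corrRank e) (finrank W.K (W.H X)) (dimOn C (pw X n)) m n) := by
  rcases irr_fun_law hC hT
    (N' := fun Z => Submodule.span W.K (S.rational Z)) (N := fun Z => Submodule.span W.K (S.hodge Z))
    (gen_stable hT hS (by
      intro Z Z' b hb c hc
      refine ⟨hS.hodge_act Z Z' b hb c hc.1, fun x => ?_⟩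
      obtain ⟨y, hy⟩ := hS.adj Z Z' b hb x
      rw [hy c]
      exact hc.2 y))
    (gen_stable hT hS hS.hodge_act) X hX he hee hirr
    with h | h
  · exact Or.inl fun c h1 => h c (Submodule.subset_span h1)
  · exact Or.inr fun n => indep_of_span (h n)

end Pool.Agent.X312.CQ
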