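import Pool.Agent.X312.FC.Defs
import Pool.Agent.X312.FC.RankDefs

/-!
# Intersection numbers with classes on the reduction: definitions
-/

open CategoryTheory AlgebraicGeometry

universe u v

namespace Pool.Agent.X312.CQ

open Pool.Agent.H914 Pool.Agent.H914.VarClass Pool.Agent.X312.FC
open Pool.Agent.X312.FM (Family Has)

variable {k : Type u} [Field k] {𝒱 : VarClass k} {ops : CycleOps 𝒱}
  {W : WeilCohomology.{u, v} ops}

/-- Data of intersection numbers. In the intended use `T(Z)` is the `ℓ`-adic cohomology of `Y × Z`. -/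
structure PairingData (T : CorrData W) where
  /-- the absolute Hodge classes -/
  hodge : ∀ Z : 𝒱.Obj, Set (T.M Z)
  /-- the Lefschetz classes on the reduction of `Y × Z` -/
  Lef : 𝒱.Obj → Type v
  /-- the intersection number of a Lefschetz class on the reduction with the reduction of a class -/
  num : ∀ Z : 𝒱.Obj, Lef Z → T.M Z → W.K
  /-- the classes of the rational Lefschetz correspondences -/
  corr : ∀ Z Z' : 𝒱.Obj, Set (W.H (Z.prod Z'))

/-- The absolute Hodge classes whose intersection numbers with all Lefschetz classes on the reduction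
are rational numbers. -/
def PairingData.rational {T : CorrData W} (S : PairingData T) (Z : 𝒱.Obj) : Set (T.M Z) :=
  {c | c ∈ S.hodge Z ∧ ∀ x : S.Lef Z, ∃ q : ℚ, S.num Z x c = (q : W.K)}

/-- The correspondences in `C` are linear combinations of those in `S.corr`, these respect the absolute
Hodge classes, and they have adjoints on the Lefschetz classes on the reduction. -/
structure PairingData.IsCompatible {T : CorrData W} (S : PairingData T) (C : Family W) : Prop where
  gen : ∀ (Z Z' : 𝒱.Obj) (a : W.H (Z.prod Z')), Has C a →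
    a ∈ Submodule.span W.K (S.corr Z Z')
  hodge_act : ∀ (Z Z' : 𝒱.Obj) (b : W.H (Z.prod Z')), b ∈ S.corr Z Z' →
    ∀ c : T.M Z, c ∈ S.hodge Z → T.act b c ∈ S.hodge Z'
  adj : ∀ (Z Z' : 𝒱.Obj) (b : W.H (Z.prod Z')), b ∈ S.corr Z Z' → ∀ x : S.Lef Z',
    ∃ y : S.Lef Z, ∀ c : T.M Z, S.num Z' x (T.act b c) = S.num Z y c

end Pool.Agent.X312.CQ
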