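import Pool.Agent.X312.CQ.RedDefs
import Pool.Agent.X312.FC.PrimLaw

/-!
# Reductions of Tate classes: the gap law
-/

open CategoryTheory AlgebraicGeometry

universe u v

namespace Pool.Agent.X312.CQ

section Avoid

variable {K V : Type v} [Field K] [AddCommGroup V] [Module K V]

/-- A finite-dimensional vector space over an uncountable field is not a countable union of proper
subspaces. -/
lemma exists_notMem_of_countable [Uncountable K] [FiniteDimensional K V] {ι : Type} [Countable ι]
    (P : ι → Submodule K V) (hP : ∀ i, P i ≠ ⊤) : ∃ v : V, ∀ i, v ∉ P i := by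
  classical
  set d := Module.finrank K V with hd
  let b : Module.Basis (Fin d) K V := Module.finBasis K V
  let c : K → V := fun t => ∑ j : Fin d, t ^ (j : ℕ) • b j
  have key : ∀ i, ({t : K | c t ∈ P i}).Countable := by
    intro i
    obtain ⟨f, hf, hle⟩ := Submodule.exists_le_ker_of_lt_top (P i) (lt_top_iff_ne_top.2 (hP i))
    let q : Polynomial K := ∑ j : Fin d, Polynomial.C (f (b j)) * Polynomial.X ^ (j : ℕ)
    have hq : q ≠ 0 := by
      intro h0
      apply hf
      refine b.ext fun j => ?_
      have h1 : q.coeff (j : ℕ) = f (b j) := by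
        change (∑ j : Fin d, Polynomial.C (f (b j)) * Polynomial.X ^ (j : ℕ)).coeff (j : ℕ) = _
        rw [Polynomial.finset_sum_coeff]
        simp only [Polynomial.coeff_C_mul, Polynomial.coeff_X_pow]
        rw [Finset.sum_eq_single j]
        · simp
        · intro j' _ hne
          have : (j : ℕ) ≠ (j' : ℕ) := fun h => hne (Fin.ext h.symm)
          simp [this]
        · intro h
          exact absurd (Finset.mem_univ j) h
      rw [h0, Polynomial.coeff_zero] at h1
      rw [LinearMap.zero_apply]
      exact h1.symm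
    have hsub : {t : K | c t ∈ P i} ⊆ {t : K | q.IsRoot t} := by
      intro t ht
      have h1 : f (c t) = 0 := LinearMap.mem_ker.1 (hle ht)
      change Polynomial.eval t q = 0
      change Polynomial.eval t (∑ j : Fin d, Polynomial.C (f (b j)) * Polynomial.X ^ (j : ℕ)) = 0
      rw [Polynomial.eval_finset_sum]
      simp only [Polynomial.eval_mul, Polynomial.eval_C, Polynomial.eval_pow, Polynomial.eval_X]
      have h2 : f (c t) = ∑ j : Fin d, f (b j) * t ^ (j : ℕ) := by
        change f (∑ j : Fin d, t ^ (j : ℕ) • b j) = _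
        rw [map_sum]
        refine Finset.sum_congr rfl fun j _ => ?_
        rw [map_smul, smul_eq_mul, mul_comm]
      rw [← h2, h1]
    exact (Polynomial.finite_setOf_isRoot hq).countable.mono hsub
  by_contra hcon
  push Not at hcon
  have h1 : (Set.univ : Set K) ⊆ ⋃ i, {t : K | c t ∈ P i} := by
    intro t _
    obtain ⟨i, hi⟩ := hcon (c t)
    exact Set.mem_iUnion.2 ⟨i, hi⟩
  exact Set.not_countable_univ ((Set.countable_iUnion key).mono h1)

/-- Countably many subspaces of codimension at least `r` have a common complement, up to dimension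
`r`. -/
lemma exists_generic [Uncountable K] [FiniteDimensional K V] {ι : Type} [Countable ι] [Nonempty ι]
    (N : ι → Submodule K V) (r : ℕ)
    (h : ∀ i, Module.finrank K (N i) + r ≤ Module.finrank K V) (j : ℕ) (hj : j ≤ r) :
    ∃ U : Submodule K V, Module.finrank K U = j ∧ ∀ i, U ⊓ N i = ⊥ := by
  induction j with
  | zero => exact ⟨⊥, finrank_bot K V, fun i => bot_inf_eq _⟩
  | succ j ih =>
    obtain ⟨U, hU, hU'⟩ := ih (by omega)
    obtain ⟨v, hv⟩ := exists_notMem_of_countable (fun i => N i ⊔ U) (by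
      intro i htop
      have h1 := Submodule.finrank_add_le_finrank_add_finrank (N i) U
      rw [htop, finrank_top, hU] at h1
      have h2 := h i
      omega)
    have hvU : v ∉ U := fun hmem => hv (Classical.arbitrary ι) (Submodule.mem_sup_right hmem)
    have hv0 : v ≠ 0 := fun h0 => hvU (by rw [h0]; exact U.zero_mem)
    refine ⟨U ⊔ Submodule.span K {v}, ?_, ?_⟩
    · have h1 : U ⊓ Submodule.span K {v} = ⊥ := by
        rw [Submodule.eq_bot_iff]
        rintro x ⟨hx, hx'⟩
        obtain ⟨t, rfl⟩ := Submodule.mem_span_singleton.1 hx'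
        by_cases ht : t = 0
        · rw [ht, zero_smul]
        · refine absurd ?_ hvU
          have h2 := U.smul_mem t⁻¹ hx
          rwa [smul_smul, inv_mul_cancel₀ ht, one_smul] at h2
      have h2 := Submodule.finrank_sup_add_finrank_inf_eq U (Submodule.span K {v})
      rw [h1, finrank_bot, add_zero, hU, finrank_span_singleton hv0] at h2
      exact h2
    · intro i
      rw [Submodule.eq_bot_iff]
      rintro x ⟨hx, hxN⟩
      obtain ⟨y, hy, z, hz, rfl⟩ := Submodule.mem_sup.1 hx
      obtain ⟨t, rfl⟩ := Submodule.mem_span_singleton.1 hz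
      by_cases ht : t = 0
      · rw [ht, zero_smul, add_zero] at hxN ⊢
        have h1 : y ∈ U ⊓ N i := ⟨hy, hxN⟩
        rw [hU' i] at h1
        exact (Submodule.mem_bot K).1 h1
      · refine absurd ?_ (hv i)
        have h1 : v = t⁻¹ • (y + t • v) - t⁻¹ • y := by
          rw [smul_add, smul_smul, inv_mul_cancel₀ ht, one_smul, add_sub_cancel_left]
        rw [h1]
        exact Submodule.sub_mem _ (Submodule.mem_sup_left ((N i).smul_mem _ hxN))
          (Submodule.mem_sup_right (U.smul_mem _ hy))

lemma codim_of_indep [FiniteDimensional K V] {N : Submodule K V} {r : ℕ} {a : Fin r → V}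
    (ha : LinearIndependent K (fun i => N.mkQ (a i))) :
    Module.finrank K N + r ≤ Module.finrank K V := by
  have h1 : r ≤ Module.finrank K (V ⧸ N) := by
    have h2 := ha.fintype_card_le_finrank
    rwa [Fintype.card_fin] at h2
  have h3 := Submodule.finrank_quotient_add_finrank N
  omega

end Avoid

open Module
open Pool.Agent.H914 Pool.Agent.H914.VarClass Pool.Agent.H914.VarClass.Obj
  Pool.Agent.H914.WeilCohomology Pool.Agent.Y133.Half Pool.Agent.X312.FC
open Pool.Agent.X312.FM (Family Has IsRingFamily IsNondeg dimOn)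
open Pool.Agent.X312.FK (composite IrreducibleIn)

variable {k : Type u} [Field k] {𝒱 : VarClass k} {ops : CycleOps 𝒱}
  {W : WeilCohomology.{u, v} ops} {C : Family W} {T : CorrData W}

lemma rankBound_mono {d d' b ρ m n : ℕ} (h : d ≤ d') :
    rankBound d b ρ m n ≤ rankBound d' b ρ m n := by
  unfold rankBound
  have h1 : (d : ℝ) ≤ d' := Nat.cast_le.2 h
  exact mul_le_mul_of_nonneg_right (by linarith) (Nat.cast_nonneg _)

/-- **The gap law for reductions.** -/
theorem reduction_law [Uncountable W.K] (hC : IsRingFamily C) (hT : T.IsFunctor C)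
    (hfin : ∀ Z : 𝒱.Obj, FiniteDimensional W.K (T.M Z)) {ι : Type} [Countable ι] [Nonempty ι]
    {alg : ι → ∀ Z : 𝒱.Obj, Submodule W.K (T.M Z)} (halg : IsReduction C T alg) (X : 𝒱.Obj)
    (hX : ∀ n, IsNondeg C (pw X n)) {m : ℕ} {J : Type} [Fintype J]
    {e : J → W.H ((pw X m).prod (pw X m))} (he : ∀ j, Has C (e j))
    (hee : ∀ j, composite W (e j) (e j) = e j) (hirr : ∀ j, IrreducibleIn (Has C) (e j))
    {D : ℕ} (hD : ∀ j, D ≤ corrRank (e j)) :
    (∀ x : T.M (pw X m), ∃ s : ι, ∑ j : J, T.act (e j) x ∈ alg s (pw X m)) ∨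
    ∀ n : ℕ, ∃ U : Submodule W.K (T.M (pw X n)), (∀ s : ι, U ⊓ alg s (pw X n) = ⊥) ∧
      rankBound D (finrank W.K (W.H X)) (dimOn C (pw X n)) m n ≤ finrank W.K U := by
  by_cases h0 : ∀ x : T.M (pw X m), ∃ s : ι, ∑ j : J, T.act (e j) x ∈ alg s (pw X m)
  · exact Or.inl h0
  right
  push Not at h0
  obtain ⟨x, hx⟩ := h0
  intro n
  have := hfin (pw X n)
  set c := rankBound D (finrank W.K (W.H X)) (dimOn C (pw X n)) m n with hc
  obtain ⟨U, hU, hU'⟩ := exists_generic (fun s => alg s (pw X n)) ⌈c⌉₊ (by
    intro s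
    have hj : ∃ j : J, T.act (e j) x ∉ alg s (pw X m) := by
      by_contra hcon
      push Not at hcon
      exact hx s (Submodule.sum_mem _ fun j _ => hcon j)
    obtain ⟨j, hj⟩ := hj
    rcases irr_fun_law hC hT (N' := fun Z => alg s Z)
      (fun Z Z' a ha y hy => halg s Z Z' a ha y hy) (N := fun _ => ⊤) top_stable X hX (he j)
      (hee j) (hirr j) with h | h
    · exact absurd (h x Submodule.mem_top) hj
    · obtain ⟨r, a, h1, h2, h3⟩ := h n
      have h4 := codim_of_indep h2
      have h5 : ⌈c⌉₊ ≤ r := Nat.ceil_le.2 ((rankBound_mono (hD j)).trans h1)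
      omega) ⌈c⌉₊ le_rfl
  refine ⟨U, hU', ?_⟩
  rw [hU]
  exact Nat.le_ceil c

end Pool.Agent.X312.CQ
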