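import Pool.Agent.X312.FC.Defs
import Pool.Agent.X312.FC.RankDefs

/-!
# Reductions of Tate classes: definitions
-/

open CategoryTheory AlgebraicGeometry

universe u v

namespace Pool.Agent.X312.CQ

open Pool.Agent.H914 Pool.Agent.H914.VarClass Pool.Agent.X312.FC
open Pool.Agent.X312.FM (Family Has)

variable {k : Type u} [Field k] {𝒱 : VarClass k} {ops : CycleOps 𝒱}
  {W : WeilCohomology.{u, v} ops}

/-- For each `s` and `Z` a subspace `alg s Z` of `T(Z)` is given, and the correspondences in `C` respect
these subspaces. In the intended use `T(Z)` is the space of the Tate classes on `Y × Z`, and `alg s Z` is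
the subspace of the Tate classes whose reduction at `s` is algebraic. -/
def IsReduction (C : Family W) (T : CorrData W) {ι : Type} (alg : ι → ∀ Z : 𝒱.Obj,
    Submodule W.K (T.M Z)) : Prop :=
  ∀ (s : ι) (Z Z' : 𝒱.Obj) (a : W.H (Z.prod Z')), Has C a → ∀ x : T.M Z, x ∈ alg s Z →
    T.act a x ∈ alg s Z'

end Pool.Agent.X312.CQ
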