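import Pool.Agent.X312.FC.Defs
import Pool.Agent.X312.FC.RankDefs

/-!
# Deformations of cycle classes: definitions
-/

open CategoryTheory AlgebraicGeometry

universe u v

namespace Pool.Agent.X312.CQ

open Pool.Agent.H914 Pool.Agent.H914.VarClass Pool.Agent.X312.FC
open Pool.Agent.X312.FM (Family Has)

variable {k : Type u} [Field k] {𝒱 : VarClass k} {ops : CycleOps 𝒱}
  {W : WeilCohomology.{u, v} ops}

/-- Data of a variation. In the intended use `T(Z)` is the cohomology of the fibre at `s` of the
family `𝒴 × Z → S`, where `𝒴 → S` is a smooth proper family. -/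
structure VariationData (T : CorrData W) where
  /-- the classes of cycles on the fibre -/
  cyc : ∀ Z : 𝒱.Obj, Set (T.M Z)
  /-- the flat classes -/
  flat : ∀ Z : 𝒱.Obj, Set (T.M Z)
  /-- the restrictions to the fibre of the classes of cycles on the total space -/
  res : ∀ Z : 𝒱.Obj, Set (T.M Z)
  /-- the classes of the correspondences given by cycles -/
  corr : ∀ Z Z' : 𝒱.Obj, Set (W.H (Z.prod Z'))

/-- The correspondences in `C` are linear combinations of those which are given by cycles, and these
respect the classes of cycles, the flat classes, and the restrictions of the classes of cycles. -/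
structure VariationData.IsCompatible {T : CorrData W} (S : VariationData T) (C : Family W) :
    Prop where
  gen : ∀ (Z Z' : 𝒱.Obj) (a : W.H (Z.prod Z')), Has C a →
    a ∈ Submodule.span W.K {b | Has C b ∧ b ∈ S.corr Z Z'}
  cyc_act : ∀ (Z Z' : 𝒱.Obj) (b : W.H (Z.prod Z')), Has C b → b ∈ S.corr Z Z' →
    ∀ x : T.M Z, x ∈ S.cyc Z → T.act b x ∈ S.cyc Z'
  flat_act : ∀ (Z Z' : 𝒱.Obj) (b : W.H (Z.prod Z')), Has C b → b ∈ S.corr Z Z' →
    ∀ x : T.M Z, x ∈ S.flat Z → T.act b x ∈ S.flat Z'
  res_act : ∀ (Z Z' : 𝒱.Obj) (b : W.H (Z.prod Z')), Has C b → b ∈ S.corr Z Z' →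
    ∀ x : T.M Z, x ∈ S.res Z → T.act b x ∈ S.res Z'

end Pool.Agent.X312.CQ
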